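import Pool.Agent.Lib.MP_b41181_pr.XO.Limit
import Pool.Agent.Lib.MP_b41181_pr.Exist

open MeasureTheory ProbabilityTheory Filter Topology Pool.Agent.Lib.MP_b41181_pr
open scoped NNReal ENNReal

/-- The model has a realisation; in every realisation the critical exponent is one third and the
maximal displacement is of exact order `(t log t / lam) ^ (1/3)`, with absolute constants, the
particle being killed when it is in the trap field. -/
theorem Pool.Agent.Results.MP_b41181_pr.ExactOrder.result :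
    ∃ c C : ℝ, 0 < c ∧ c < C ∧ ∀ lam a : ℝ, 0 < lam → 0 < a →
      (∃ (Ω : Type) (_ : MeasurableSpace Ω) (P : Measure Ω) (X : ℝ≥0 → Ω → ℝ) (x : ℕ → Ω → ℝ)
        (Y : ℕ → ℝ≥0 → Ω → ℝ), IsTrapModel lam X x Y P) ∧
      ∀ (Ω : Type*) [MeasurableSpace Ω] (P : Measure Ω) (X : ℝ≥0 → Ω → ℝ) (x : ℕ → Ω → ℝ)
        (Y : ℕ → ℝ≥0 → Ω → ℝ), IsTrapModel lam X x Y P →
          alphaStar P X (hitTime a X x Y) = 1 / 3 ∧
          Tendsto (fun t : ℝ≥0 => ProbabilityTheory.cond P {ω | (t : ℝ≥0∞) < hitTime a X x Y ω}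
            {ω | c * ((t : ℝ) * Real.log t / lam) ^ (1 / 3 : ℝ) ≤ maxDisp X t ω ∧
              maxDisp X t ω ≤ C * ((t : ℝ) * Real.log t / lam) ^ (1 / 3 : ℝ)}) atTop (𝓝 1) := by
  refine ⟨escC 1, 2 * XO.upK + escC 1, escC_pos one_pos, by linarith [XO.upK_pos],
    fun lam a hlam ha => ⟨exists_isTrapModel hlam, fun Ω _ P X x Y h => ⟨?_, ?_⟩⟩⟩
  · rw [← Tb_false]
    exact h.alphaStar_eq hlam DU_false ha.le
  · have := h.prob
    refine tendsto_of_tendsto_of_tendsto_of_le_of_le' (XO.exact_order h hlam ha.le)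
      tendsto_const_nhds ?_ (Eventually.of_forall fun t =>
        cond_le_one (Tb_false a X x Y ▸ h.Tb_pos hlam.le false ha.le t))
    filter_upwards [eventually_ge_atTop 1] with t ht
    have hl : 0 ≤ Real.log t := Real.log_nonneg ht
    have h1 : 0 ≤ escC 1 * ((t : ℝ) * Real.log t / lam) ^ (1 / 3 : ℝ) :=
      mul_nonneg (escC_pos one_pos).le (by positivity)
    exact measure_mono fun ω hω => ⟨hω.1, hω.2.trans (by linarith)⟩
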