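import Pool.Agent.Lib.MP_b41181_pr.Range
import Pool.Agent.Lib.MP_b41181_pr.Exist

open MeasureTheory ProbabilityTheory Pool.Agent.Lib.MP_b41181_pr
open scoped NNReal

/-- The model has a realisation, and in every realisation the critical exponent is one third, the
killing time being the first time at which the range of the particle meets the trap field. -/
theorem Pool.Agent.Results.MP_b41181_pr.ExponentRange.result (lam a : ℝ) (hlam : 0 < lam)
    (ha : 0 < a) :
    (∃ (Ω : Type) (_ : MeasurableSpace Ω) (P : Measure Ω) (X : ℝ≥0 → Ω → ℝ) (x : ℕ → Ω → ℝ)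
      (Y : ℕ → ℝ≥0 → Ω → ℝ), IsTrapModel lam X x Y P) ∧
    ∀ (Ω : Type*) [MeasurableSpace Ω] (P : Measure Ω) (X : ℝ≥0 → Ω → ℝ) (x : ℕ → Ω → ℝ)
      (Y : ℕ → ℝ≥0 → Ω → ℝ), IsTrapModel lam X x Y P →
        alphaStar P X (rangeHitTime a X x Y) = 1 / 3 := by
  refine ⟨exists_isTrapModel hlam, fun Ω _ P X x Y h => ?_⟩
  rw [← Tb_true]
  exact h.alphaStar_eq hlam DU_true ha.le
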